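import Pool.Agent.N299.PX.Stm

/-!
# Project PX, leaf RK: a rank lemma
-/

set_option autoImplicit false

open Filter

namespace Pool.Agent.N966.PX

open Pool.Agent.N299.PX

/-- products of `2n x n` and `n x 2n` matrices do not converge to the unit matrix -/
theorem t_RK : S_RK := by
  intro n hn ζ h
  have hdet : ∀ k, (Matrix.conjTranspose (ζ k) * ζ k).det = 0 := by
    intro k
    by_contra hne
    have h1 : IsUnit (Matrix.conjTranspose (ζ k) * ζ k) :=
      (Matrix.isUnit_iff_isUnit_det _).2 (isUnit_iff_ne_zero.2 hne)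
    have h2 := Matrix.rank_of_isUnit _ h1
    have h3 : (Matrix.conjTranspose (ζ k) * ζ k).rank ≤ (ζ k).rank := Matrix.rank_mul_le_right _ _
    have h4 : (ζ k).rank ≤ n := by
      have := Matrix.rank_le_card_height (ζ k)
      rwa [Fintype.card_fin] at this
    rw [h2, Fintype.card_prod, Fintype.card_fin, Fintype.card_fin] at h3
    omega
  have h5 : Tendsto (fun k => (Matrix.conjTranspose (ζ k) * ζ k).det) atTop
      (nhds (1 : Matrix (Fin 2 × Fin n) (Fin 2 × Fin n) ℂ).det) :=
    ((continuous_id.matrix_det).tendsto _).comp h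
  rw [Matrix.det_one] at h5
  simp only [hdet] at h5
  exact zero_ne_one (tendsto_nhds_unique tendsto_const_nhds h5)

end Pool.Agent.N966.PX

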